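import Pool.Agent.Helper1.Wav.Completion

/-!
The frame of a difference of two shift-invariant spaces (MP_d629b1_an, module W10b).
-/

set_option autoImplicit false

open MeasureTheory Matrix Module Finset
open scoped ComplexConjugate ContDiff InnerProductSpace

namespace Pool.Agent.Helper80.Wav

open Pool.Agent.Helper54.Wav

theorem zv_add {n : ℕ} (m k : Fin n → ℤ) : zv (m + k) = zv m + zv k := by
  funext i
  simp [zv]

theorem finite_zv {n : ℕ} (R : ℝ) : {m : Fin n → ℤ | ‖zv m‖ ≤ R}.Finite := by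
  refine (Set.finite_Icc (fun _ : Fin n => -⌈R⌉) (fun _ => ⌈R⌉)).subset ?_
  intro m hm
  have h1 : ‖zv m‖ ≤ R := hm
  have h2 : ∀ i, |(m i : ℝ)| ≤ R := fun i => (norm_le_pi_norm (zv m) i).trans h1
  refine Set.mem_Icc.mpr ⟨fun i => ?_, fun i => ?_⟩
  · have h3 := neg_le_of_abs_le (h2 i)
    have h4 : (-(⌈R⌉ : ℤ) : ℝ) ≤ m i := by
      have := Int.le_ceil R
      linarith
    exact_mod_cast h4
  · have h3 := le_of_abs_le (h2 i)
    have h4 : (m i : ℝ) ≤ (⌈R⌉ : ℤ) := h3.trans (Int.le_ceil R)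
    exact_mod_cast h4

theorem supp_bound {n p : ℕ} (G : Fin p → (Fin n → ℝ) → ℂ) (hc : ∀ s, HasCompactSupport (G s)) :
    ∃ R : ℝ, ∀ s x, R < ‖x‖ → G s x = 0 := by
  have h1 : ∀ s, ∃ R : ℝ, ∀ x, R < ‖x‖ → G s x = 0 := by
    intro s
    obtain ⟨R, hR⟩ := (hc s).isCompact.isBounded.exists_norm_le
    refine ⟨R, fun x hx => ?_⟩
    by_contra hne
    exact absurd (hR x (subset_tsupport _ hne)) (not_le.mpr hx)
  choose R hR using h1
  refine ⟨∑ s, |R s|, fun s x hx => hR s x (lt_of_le_of_lt ?_ hx)⟩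
  exact (le_abs_self _).trans (Finset.single_le_sum (f := fun s => |R s|)
    (fun _ _ => abs_nonneg _) (mem_univ s))

/-- A finite set of relevant translates over a ball. -/
theorem exists_fin {n : ℕ} (R ρ : ℝ) : ∃ S : Finset (Fin n → ℤ), ∀ m ∉ S, ∀ ξ : Fin n → ℝ,
    ‖ξ‖ ≤ ρ → R < ‖ξ + zv m‖ := by
  refine ⟨(finite_zv (n := n) (R + ρ)).toFinset, fun m hm ξ hξ => ?_⟩
  rw [Set.Finite.mem_toFinset, Set.mem_setOf_eq, not_le] at hm
  have h1 : ‖zv m‖ ≤ ‖ξ + zv m‖ + ‖ξ‖ := by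
    have : zv m = (ξ + zv m) - ξ := by abel
    calc ‖zv m‖ = ‖(ξ + zv m) - ξ‖ := by rw [← this]
      _ ≤ _ := norm_sub_le _ _
  linarith

/-- A locally finite sum over translates is a finite sum. -/
theorem finsum_eq {n : ℕ} {R ρ : ℝ} {S : Finset (Fin n → ℤ)}
    (hS : ∀ m ∉ S, ∀ ξ : Fin n → ℝ, ‖ξ‖ ≤ ρ → R < ‖ξ + zv m‖) {ξ : Fin n → ℝ} (hξ : ‖ξ‖ ≤ ρ)
    (F : (Fin n → ℤ) → ℂ) (hF : ∀ m, R < ‖ξ + zv m‖ → F m = 0) :
    ∑ᶠ m, F m = ∑ m ∈ S, F m := by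
  refine finsum_eq_sum_of_support_subset _ (fun m hm => ?_)
  by_contra hcon
  exact hm (hF m (hS m (fun h => hcon (mem_coe.mpr h)) ξ hξ))

variable {n p q : ℕ} (G0 : Fin p → (Fin n → ℝ) → ℂ) (G1 : Fin (p + q) → (Fin n → ℝ) → ℂ)

/-- The coefficients of `G0` in the frame `G1`. -/
noncomputable def Cc (a : Fin p) (b : Fin (p + q)) (ξ : Fin n → ℝ) : ℂ :=
  ∑ᶠ m : Fin n → ℤ, G0 a (ξ + zv m) * conj (G1 b (ξ + zv m))

theorem Cc_per (a : Fin p) (b : Fin (p + q)) : Per (Cc G0 G1 a b) := by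
  intro ξ k
  unfold Cc
  rw [← finsum_comp_equiv (Equiv.addRight k) (f := fun m : Fin n → ℤ =>
    G0 a (ξ + zv m) * conj (G1 b (ξ + zv m)))]
  refine finsum_congr (fun m => ?_)
  have h1 : ξ + zv k + zv m = ξ + zv (Equiv.addRight k m) := by
    rw [Equiv.coe_addRight, zv_add]
    abel
  rw [h1]

theorem Cc_smooth (h0 : ∀ s, ContDiff ℝ ∞ (G0 s)) (h1 : ∀ s, ContDiff ℝ ∞ (G1 s))
    (hc0 : ∀ s, HasCompactSupport (G0 s)) (a : Fin p) (b : Fin (p + q)) :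
    ContDiff ℝ ∞ (Cc G0 G1 a b) := by
  obtain ⟨R, hR⟩ := supp_bound G0 hc0
  rw [contDiff_iff_contDiffAt]
  intro ξ₀
  obtain ⟨S, hS⟩ := exists_fin (n := n) R (‖ξ₀‖ + 1)
  have h2 : Cc G0 G1 a b =ᶠ[nhds ξ₀] fun ξ =>
      ∑ m ∈ S, G0 a (ξ + zv m) * conj (G1 b (ξ + zv m)) := by
    filter_upwards [Metric.ball_mem_nhds ξ₀ one_pos] with ξ hξ
    refine finsum_eq hS ?_ _ (fun m hm => by rw [hR a _ hm, zero_mul])
    have h3 : ‖ξ - ξ₀‖ < 1 := by rwa [← dist_eq_norm]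
    have h4 : ‖ξ‖ ≤ ‖ξ - ξ₀‖ + ‖ξ₀‖ := by
      calc ‖ξ‖ = ‖(ξ - ξ₀) + ξ₀‖ := by rw [sub_add_cancel]
        _ ≤ _ := norm_add_le _ _
    linarith
  refine ContDiffAt.congr_of_eventuallyEq ?_ h2
  refine ContDiffAt.sum (fun m _ => ?_)
  have h3 : ContDiff ℝ ∞ (fun ξ : Fin n → ℝ => ξ + zv m) := contDiff_id.add contDiff_const
  have h4 : ContDiff ℝ ∞ (fun ξ : Fin n → ℝ => conj (G1 b (ξ + zv m))) :=
    (Complex.conjCLE.contDiff (n := ∞)).comp ((h1 b).comp h3)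
  exact (((h0 a).comp h3).mul h4).contDiffAt

variable {G0 G1}

/-- The Gram formula. -/
theorem gram (hc1 : ∀ s, HasCompactSupport (G1 s))
    (hon1 : ∀ s t ξ, ∑ᶠ m : Fin n → ℤ, G1 s (ξ + zv m) * conj (G1 t (ξ + zv m)) =
        if s = t then 1 else 0) (ξ : Fin n → ℝ) (α β : Fin (p + q) → ℂ) :
    ∑ᶠ m : Fin n → ℤ, (∑ b, α b * G1 b (ξ + zv m)) * conj (∑ b, β b * G1 b (ξ + zv m)) =
      ∑ b, α b * conj (β b) := by
  obtain ⟨R, hR⟩ := supp_bound G1 hc1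
  obtain ⟨S, hS⟩ := exists_fin (n := n) R ‖ξ‖
  have h1 : ∀ b b', ∑ m ∈ S, G1 b (ξ + zv m) * conj (G1 b' (ξ + zv m)) =
      if b = b' then 1 else 0 := by
    intro b b'
    rw [← hon1 b b' ξ]
    exact (finsum_eq hS le_rfl _ (fun m hm => by rw [hR b _ hm, zero_mul])).symm
  rw [finsum_eq hS le_rfl _ (fun m hm => by
    rw [sum_eq_zero (fun b _ => by rw [hR b _ hm, mul_zero]), zero_mul])]
  calc ∑ m ∈ S, (∑ b, α b * G1 b (ξ + zv m)) * conj (∑ b, β b * G1 b (ξ + zv m))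
      = ∑ m ∈ S, ∑ b, ∑ b', α b * conj (β b') * (G1 b (ξ + zv m) * conj (G1 b' (ξ + zv m))) := by
        refine sum_congr rfl (fun m _ => ?_)
        rw [map_sum, sum_mul_sum]
        refine sum_congr rfl (fun b _ => sum_congr rfl (fun b' _ => ?_))
        rw [map_mul]
        ring
    _ = ∑ b, ∑ b', α b * conj (β b') *
          ∑ m ∈ S, G1 b (ξ + zv m) * conj (G1 b' (ξ + zv m)) := by
        rw [sum_comm]
        refine sum_congr rfl (fun b _ => ?_)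
        rw [sum_comm]
        refine sum_congr rfl (fun b' _ => ?_)
        rw [mul_sum]
    _ = ∑ b, α b * conj (β b) := by
        refine sum_congr rfl (fun b _ => ?_)
        simp only [h1]
        simp

/-- Expansion of `G0` in the frame `G1`. -/
theorem expand (hc0 : ∀ s, HasCompactSupport (G0 s)) (hsub : ∀ s ξ, G0 s ξ =
      ∑ᶠ m : Fin n → ℤ, ∑ b, G1 b ξ * conj (G1 b (ξ + zv m)) * G0 s (ξ + zv m)) (a : Fin p)
    (ξ : Fin n → ℝ) (k : Fin n → ℤ) :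
    G0 a (ξ + zv k) = ∑ b, Cc G0 G1 a b ξ * G1 b (ξ + zv k) := by
  obtain ⟨R, hR⟩ := supp_bound G0 hc0
  have h0 : ∀ ξ, G0 a ξ = ∑ b, Cc G0 G1 a b ξ * G1 b ξ := by
    intro ξ
    obtain ⟨S, hS⟩ := exists_fin (n := n) R ‖ξ‖
    rw [hsub a ξ, finsum_eq hS le_rfl _ (fun m hm => sum_eq_zero (fun b _ => by
      rw [hR a _ hm, mul_zero])), sum_comm]
    refine sum_congr rfl (fun b _ => ?_)
    unfold Cc
    rw [finsum_eq hS le_rfl _ (fun m hm => by rw [hR a _ hm, zero_mul]), sum_mul]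
    refine sum_congr rfl (fun m _ => ?_)
    ring
  rw [h0 (ξ + zv k)]
  refine sum_congr rfl (fun b _ => ?_)
  rw [Cc_per G0 G1 a b ξ k]

/-- If the space of `G0` lies in the space of `G1` then the difference has a frame. The
hypothesis `hcomp` is the completion lemma (module W5). -/
theorem difference_frame_of (hcomp : ∀ s : Fin p → (Fin n → ℝ) → EuclideanSpace ℂ (Fin (p + q)),
      (∀ i, ContDiff ℝ ∞ (s i)) → (∀ i, Per (s i)) → (∀ ξ, Orthonormal ℂ (fun i => s i ξ)) →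
      ∃ t : Fin q → (Fin n → ℝ) → EuclideanSpace ℂ (Fin (p + q)),
        (∀ i, ContDiff ℝ ∞ (t i)) ∧ (∀ i, Per (t i)) ∧
        ∀ ξ, Orthonormal ℂ (Sum.elim (fun i => s i ξ) (fun i => t i ξ)))
    (h0 : ∀ s, ContDiff ℝ ∞ (G0 s)) (h1 : ∀ s, ContDiff ℝ ∞ (G1 s))
    (hc0 : ∀ s, HasCompactSupport (G0 s)) (hc1 : ∀ s, HasCompactSupport (G1 s))
    (hon0 : ∀ s t ξ, ∑ᶠ m : Fin n → ℤ, G0 s (ξ + zv m) * conj (G0 t (ξ + zv m)) =
        if s = t then 1 else 0)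
    (hon1 : ∀ s t ξ, ∑ᶠ m : Fin n → ℤ, G1 s (ξ + zv m) * conj (G1 t (ξ + zv m)) =
        if s = t then 1 else 0)
    (hsub : ∀ s ξ, G0 s ξ = ∑ᶠ m : Fin n → ℤ, ∑ b, G1 b ξ * conj (G1 b (ξ + zv m)) *
      G0 s (ξ + zv m)) :
    ∃ g : Fin q → (Fin n → ℝ) → ℂ, (∀ s, ContDiff ℝ ∞ (g s)) ∧ (∀ s, HasCompactSupport (g s)) ∧
      (∀ s t ξ, ∑ᶠ m : Fin n → ℤ, g s (ξ + zv m) * conj (g t (ξ + zv m)) =
        if s = t then 1 else 0) ∧
      (∀ ξ m, ∑ s, g s ξ * conj (g s (ξ + zv m)) =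
        ∑ s, G1 s ξ * conj (G1 s (ξ + zv m)) - ∑ s, G0 s ξ * conj (G0 s (ξ + zv m))) := by
  classical
  set c : Fin p → (Fin n → ℝ) → EuclideanSpace ℂ (Fin (p + q)) := fun a ξ =>
    WithLp.toLp 2 (fun b => Cc G0 G1 a b ξ) with hc
  have hcb : ∀ a b ξ, c a ξ b = Cc G0 G1 a b ξ := fun a b ξ => rfl
  have hcs : ∀ a, ContDiff ℝ ∞ (c a) := by
    intro a
    rw [contDiff_piLp 2]
    intro b
    exact Cc_smooth G0 G1 h0 h1 hc0 a b
  have hcp : ∀ a, Per (c a) := by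
    intro a ξ m
    rw [hc]
    simp only [Cc_per G0 G1 a _ ξ m]
  have hexp := expand (G0 := G0) (G1 := G1) hc0 hsub
  have hcon : ∀ s t ξ, ∑ b, Cc G0 G1 s b ξ * conj (Cc G0 G1 t b ξ) = if s = t then 1 else 0 := by
    intro s t ξ
    rw [← hon0 s t ξ, ← gram hc1 hon1 ξ]
    refine finsum_congr (fun m => ?_)
    rw [hexp s ξ m, hexp t ξ m]
  have hco : ∀ ξ, Orthonormal ℂ (fun a => c a ξ) := by
    intro ξ
    rw [orthonormal_iff_ite]
    intro i j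
    rw [PiLp.inner_apply]
    simp only [RCLike.inner_apply, hcb]
    rw [hcon j i ξ]
    by_cases hij : i = j
    · simp [hij]
    · rw [if_neg hij, if_neg (Ne.symm hij)]
  obtain ⟨t, hts, htp, hto⟩ := hcomp c hcs hcp hco
  have hts' : ∀ l b, ContDiff ℝ ∞ (fun ξ => t l ξ b) := fun l b =>
    ((contDiff_piLp 2).mp (hts l)) b
  -- the square unitary matrix
  have hunit : ∀ ξ b b', ∑ a, Cc G0 G1 a b ξ * conj (Cc G0 G1 a b' ξ) +
      ∑ l, t l ξ b * conj (t l ξ b') = if b = b' then 1 else 0 := by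
    intro ξ b b'
    set w : (Fin p ⊕ Fin q) → EuclideanSpace ℂ (Fin (p + q)) :=
      Sum.elim (fun i => c i ξ) (fun i => t i ξ) with hw
    have hwo : Orthonormal ℂ w := hto ξ
    set U : Matrix (Fin (p + q)) (Fin p ⊕ Fin q) ℂ := Matrix.of (fun b i => w i b) with hU
    have hUU : Uᴴ * U = 1 := by
      ext i j
      rw [Matrix.mul_apply, Matrix.one_apply]
      have h2 := (orthonormal_iff_ite.mp hwo) i j
      rw [PiLp.inner_apply] at h2
      rw [← h2]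
      refine sum_congr rfl (fun b _ => ?_)
      simp only [hU, Matrix.conjTranspose_apply, Matrix.of_apply, RCLike.inner_apply]
      rw [mul_comm]
      rfl
    have hcard : Fintype.card (Fin p ⊕ Fin q) = Fintype.card (Fin (p + q)) := by simp
    have hUU' : U * Uᴴ = 1 := (Matrix.mul_eq_one_comm_of_card_eq _ _ _ hcard).mp hUU
    have h3 := congrFun (congrFun hUU' b) b'
    rw [Matrix.mul_apply, Matrix.one_apply, Fintype.sum_sum_type] at h3
    exact h3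
  set g : Fin q → (Fin n → ℝ) → ℂ := fun l ξ => ∑ b, t l ξ b * G1 b ξ with hg
  have hgm : ∀ l ξ m, g l (ξ + zv m) = ∑ b, t l ξ b * G1 b (ξ + zv m) := by
    intro l ξ m
    simp only [hg, htp l ξ m]
  refine ⟨g, ?_, ?_, ?_, ?_⟩
  · intro l
    exact ContDiff.sum (fun b _ => (hts' l b).mul (h1 b))
  · intro l
    obtain ⟨R, hR⟩ := supp_bound G1 hc1
    refine HasCompactSupport.of_support_subset_isCompact
      (isCompact_closedBall (0 : Fin n → ℝ) R) ?_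
    intro x hx
    rw [Metric.mem_closedBall, dist_zero_right]
    by_contra hcon'
    rw [not_le] at hcon'
    exact hx (sum_eq_zero (fun b _ => by rw [hR b x hcon', mul_zero]))
  · intro s t' ξ
    have h2 : ∀ m : Fin n → ℤ, g s (ξ + zv m) * conj (g t' (ξ + zv m)) =
        (∑ b, t s ξ b * G1 b (ξ + zv m)) * conj (∑ b, t t' ξ b * G1 b (ξ + zv m)) := by
      intro m
      rw [hgm, hgm]
    rw [finsum_congr h2, gram hc1 hon1 ξ]
    have h3 := (orthonormal_iff_ite.mp (hto ξ)) (Sum.inr t') (Sum.inr s)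
    rw [PiLp.inner_apply] at h3
    simp only [Sum.elim_inr, RCLike.inner_apply] at h3
    rw [h3]
    by_cases hst : s = t'
    · simp [hst]
    · rw [if_neg hst, if_neg (fun h => hst (Sum.inr_injective h).symm)]
  · intro ξ m
    have e0 : ∀ s, G0 s ξ = ∑ b, Cc G0 G1 s b ξ * G1 b ξ := by
      intro s
      have := hexp s ξ 0
      have hz : ξ + zv (0 : Fin n → ℤ) = ξ := by
        funext i
        simp [zv]
      rwa [hz] at this
    have key : ∀ (N : ℕ) (γ : Fin N → Fin (p + q) → ℂ),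
        ∑ s, (∑ b, γ s b * G1 b ξ) * conj (∑ b, γ s b * G1 b (ξ + zv m)) =
        ∑ b, ∑ b', (∑ s, γ s b * conj (γ s b')) * (G1 b ξ * conj (G1 b' (ξ + zv m))) := by
      intro N γ
      calc ∑ s, (∑ b, γ s b * G1 b ξ) * conj (∑ b, γ s b * G1 b (ξ + zv m))
          = ∑ s, ∑ b, ∑ b', γ s b * conj (γ s b') * (G1 b ξ * conj (G1 b' (ξ + zv m))) := by
            refine sum_congr rfl (fun s _ => ?_)
            rw [map_sum, sum_mul_sum]
            refine sum_congr rfl (fun b _ => sum_congr rfl (fun b' _ => ?_))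
            rw [map_mul]
            ring
        _ = ∑ b, ∑ b', (∑ s, γ s b * conj (γ s b')) * (G1 b ξ * conj (G1 b' (ξ + zv m))) := by
            rw [sum_comm]
            refine sum_congr rfl (fun b _ => ?_)
            rw [sum_comm]
            refine sum_congr rfl (fun b' _ => ?_)
            rw [sum_mul]
    have e1 : ∑ s, g s ξ * conj (g s (ξ + zv m)) =
        ∑ b, ∑ b', (∑ s, t s ξ b * conj (t s ξ b')) * (G1 b ξ * conj (G1 b' (ξ + zv m))) := by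
      rw [← key q (fun s b => t s ξ b)]
      refine sum_congr rfl (fun s _ => ?_)
      rw [hgm]
    have e2 : ∑ s, G0 s ξ * conj (G0 s (ξ + zv m)) =
        ∑ b, ∑ b', (∑ s, Cc G0 G1 s b ξ * conj (Cc G0 G1 s b' ξ)) *
          (G1 b ξ * conj (G1 b' (ξ + zv m))) := by
      rw [← key p (fun s b => Cc G0 G1 s b ξ)]
      refine sum_congr rfl (fun s _ => ?_)
      rw [hexp s ξ m, ← e0 s]
    rw [e1, e2, eq_sub_iff_add_eq, ← sum_add_distrib]
    refine sum_congr rfl (fun b _ => ?_)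
    rw [← sum_add_distrib]
    have e3 : ∀ b', (∑ s, t s ξ b * conj (t s ξ b')) * (G1 b ξ * conj (G1 b' (ξ + zv m))) +
        (∑ s, Cc G0 G1 s b ξ * conj (Cc G0 G1 s b' ξ)) * (G1 b ξ * conj (G1 b' (ξ + zv m))) =
        if b = b' then G1 b ξ * conj (G1 b' (ξ + zv m)) else 0 := by
      intro b'
      have h5 := hunit ξ b b'
      have h6 : (∑ s, t s ξ b * conj (t s ξ b')) =
          (if b = b' then 1 else 0) - ∑ s, Cc G0 G1 s b ξ * conj (Cc G0 G1 s b' ξ) := by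
        rw [← h5]
        ring
      rw [h6]
      split_ifs <;> ring
    rw [sum_congr rfl (fun b' _ => e3 b')]
    simp

/-- Module W10b. -/
theorem difference_frame {n p q : ℕ} (hq : n ≤ 2 * q)
    (G0 : Fin p → (Fin n → ℝ) → ℂ) (G1 : Fin (p + q) → (Fin n → ℝ) → ℂ)
    (h0 : ∀ s, ContDiff ℝ ∞ (G0 s)) (h1 : ∀ s, ContDiff ℝ ∞ (G1 s))
    (hc0 : ∀ s, HasCompactSupport (G0 s)) (hc1 : ∀ s, HasCompactSupport (G1 s))
    (hon0 : ∀ s t ξ, ∑ᶠ m : Fin n → ℤ, G0 s (ξ + zv m) * conj (G0 t (ξ + zv m)) =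
        if s = t then 1 else 0)
    (hon1 : ∀ s t ξ, ∑ᶠ m : Fin n → ℤ, G1 s (ξ + zv m) * conj (G1 t (ξ + zv m)) =
        if s = t then 1 else 0)
    (hsub : ∀ s ξ, G0 s ξ = ∑ᶠ m : Fin n → ℤ, ∑ b, G1 b ξ * conj (G1 b (ξ + zv m)) *
      G0 s (ξ + zv m)) :
    ∃ g : Fin q → (Fin n → ℝ) → ℂ, (∀ s, ContDiff ℝ ∞ (g s)) ∧ (∀ s, HasCompactSupport (g s)) ∧
      (∀ s t ξ, ∑ᶠ m : Fin n → ℤ, g s (ξ + zv m) * conj (g t (ξ + zv m)) =
        if s = t then 1 else 0) ∧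
      (∀ ξ m, ∑ s, g s ξ * conj (g s (ξ + zv m)) =
        ∑ s, G1 s ξ * conj (G1 s (ξ + zv m)) - ∑ s, G0 s ξ * conj (G0 s (ξ + zv m))) :=
  difference_frame_of (fun s hs hp ho => completion p q (by simp) hq s hs hp ho)
    h0 h1 hc0 hc1 hon0 hon1 hsub

end Pool.Agent.Helper80.Wav
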