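import Pool.Agent.Helper54.Wav.Final2

/-!
# The template package in the irrational directions
-/

set_option autoImplicit false

open MeasureTheory Matrix Set
open scoped ComplexConjugate ContDiff ENNReal

namespace Pool.Agent.Helper80.Wav

open Pool.Agent.Helper54.Wav

variable {n : ℕ}

/-- the two frames of a template, for one dilation `B` with `q B` an integer matrix -/
theorem pack_one (hn : 0 < n) (N : Seminorm ℝ (Fin n → ℝ)) (hN : ∀ x, N x = 0 → x = 0)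
    (κ : ℝ) (hκ : 0 < κ) (hκ1 : κ < 1) (B : Matrix (Fin n) (Fin n) ℝ)
    (hB : ∀ x, N x ≤ κ * N (B *ᵥ x)) (hdet : 1 < |B.det|) (q : ℕ) (hq : 0 < q)
    (D : Matrix (Fin n) (Fin n) ℤ) (hD : D.map (fun z : ℤ => (z : ℝ)) = (q : ℝ) • B) :
    ∃ (d : ℝ) (r : ℕ) (φ : Fin r → (Fin n → ℝ) → ℂ) (a c : ℕ) (τ : Fin a → (Fin n → ℝ) → ℂ)
      (g : Fin c → (Fin n → ℝ) → ℂ), 0 < d ∧ (∀ s x, d ≤ N x → φ s x = 0) ∧
      (∀ ξ m, N ξ ≤ κ * d → ∑ s, φ s ξ * conj (φ s (ξ + zv m)) = if m = 0 then 1 else 0) ∧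
      (∀ l, ContDiff ℝ ∞ (τ l)) ∧ (∀ l, HasCompactSupport (τ l)) ∧ (∀ l, ∫ ξ, ‖τ l ξ‖ ^ 2 = 1) ∧
      (∀ l, ContDiff ℝ ∞ (g l)) ∧ (∀ l, HasCompactSupport (g l)) ∧ (∀ l, ∫ ξ, ‖g l ξ‖ ^ 2 = 1) ∧
      (∃ ε > 0, ∀ l ξ, ‖ξ‖ < ε → g l ξ = 0) ∧
      (∀ ξ (m : Fin n → ℤ), ∑ s, τ s ξ * conj (τ s (ξ + zv m)) =
        ker φ ((q : ℝ)⁻¹ • (B⁻¹ *ᵥ ξ)) ((q : ℝ)⁻¹ • (B⁻¹ *ᵥ zv m))) ∧
      (∀ ξ (m : Fin n → ℤ), ∑ s, g s ξ * conj (g s (ξ + zv m)) =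
        ker φ ((q : ℝ)⁻¹ • (B⁻¹ *ᵥ ξ)) ((q : ℝ)⁻¹ • (B⁻¹ *ᵥ zv m)) -
          ker φ ((q : ℝ)⁻¹ • ξ) ((q : ℝ)⁻¹ • zv m)) := by
  classical
  have hBdet : B.det ≠ 0 := det_pos_of_norm N hN B hB
  have hBu : IsUnit B.det := isUnit_iff_ne_zero.2 hBdet
  have hq' : (q : ℝ) ≠ 0 := by positivity
  obtain ⟨c2, hc2, hN2⟩ := seminorm_le N
  obtain ⟨c1, hc1, hN1⟩ := le_seminorm N hN
  -- the template
  obtain ⟨d, r, φ, hd, hr, hφs, hφd, hφon, hφcomp⟩ := template hn N hN κ hκ hκ1 n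
  have hφc : ∀ s, HasCompactSupport (φ s) := by
    intro s
    refine HasCompactSupport.intro (isCompact_closedBall (0 : Fin n → ℝ) (d / c1)) fun x hx => ?_
    apply hφd
    rw [mem_closedBall_zero_iff, not_le, div_lt_iff₀ hc1] at hx
    have := hN1 x
    linarith
  -- the two scaled frames
  have hD0 : ((q : ℤ) • (1 : Matrix (Fin n) (Fin n) ℤ)).map (fun z : ℤ => (z : ℝ)) =
      (q : ℝ) • (1 : Matrix (Fin n) (Fin n) ℝ) := by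
    ext i j
    rw [Matrix.map_apply, Matrix.smul_apply, Matrix.smul_apply, Matrix.one_apply,
      Matrix.one_apply, smul_eq_mul, smul_eq_mul]
    split_ifs <;> simp
  have hD0det : ((q : ℤ) • (1 : Matrix (Fin n) (Fin n) ℤ)).det = (q : ℤ) ^ n := by
    rw [Matrix.det_smul, Matrix.det_one, Fintype.card_fin, mul_one]
  have hDdetR : ((D.det : ℤ) : ℝ) = (q : ℝ) ^ n * B.det := by
    have h1 := (Int.castRingHom ℝ).map_det D
    rw [RingHom.mapMatrix_apply] at h1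
    have h2 : D.map (Int.castRingHom ℝ) = (q : ℝ) • B := hD
    rw [h2, Matrix.det_smul, Fintype.card_fin] at h1
    simpa using h1
  have hDdet : D.det ≠ 0 := by
    intro h
    rw [h] at hDdetR
    have : (q : ℝ) ^ n * B.det ≠ 0 := mul_ne_zero (pow_ne_zero _ hq') hBdet
    exact this (by simpa using hDdetR.symm)
  have hD0det' : ((q : ℤ) • (1 : Matrix (Fin n) (Fin n) ℤ)).det ≠ 0 := by
    rw [hD0det]; positivity
  -- inverse matrices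
  have hinv0 : ∀ x : Fin n → ℝ, (((q : ℤ) • (1 : Matrix (Fin n) (Fin n) ℤ)).map
      (fun z : ℤ => (z : ℝ)))⁻¹ *ᵥ x = (q : ℝ)⁻¹ • x := by
    intro x
    rw [hD0]
    have h1 : ((q : ℝ) • (1 : Matrix (Fin n) (Fin n) ℝ))⁻¹ = (q : ℝ)⁻¹ • 1 := by
      apply Matrix.inv_eq_right_inv
      rw [Matrix.smul_mul, Matrix.one_mul, smul_smul, mul_inv_cancel₀ hq', one_smul]
    rw [h1, Matrix.smul_mulVec, Matrix.one_mulVec]
  have hinv1 : ∀ x : Fin n → ℝ, (D.map (fun z : ℤ => (z : ℝ)))⁻¹ *ᵥ x =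
      (q : ℝ)⁻¹ • (B⁻¹ *ᵥ x) := by
    intro x
    rw [hD]
    have h1 : ((q : ℝ) • B)⁻¹ = (q : ℝ)⁻¹ • B⁻¹ := by
      apply Matrix.inv_eq_right_inv
      rw [Matrix.smul_mul, Matrix.mul_smul, smul_smul, Matrix.mul_nonsing_inv B hBu,
        mul_inv_cancel₀ hq', one_smul]
    rw [h1, Matrix.smul_mulVec]
  have hNinv : ∀ x : Fin n → ℝ, N (B⁻¹ *ᵥ x) ≤ κ * N x := by
    intro x
    have h1 := hB (B⁻¹ *ᵥ x)
    rwa [Matrix.mulVec_mulVec, Matrix.mul_nonsing_inv B hBu, Matrix.one_mulVec] at h1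
  obtain ⟨G0, hG0s, hG0c, hG0z, hG0on, hG0k⟩ :=
    Pool.Agent.Helper96.Wav.scale_frame φ hφs hφc hφon _ hD0det'
  have hS1 := Pool.Agent.Helper96.Wav.scale_frame φ hφs hφc hφon D hDdet
  -- the counts
  obtain ⟨L, hL, hLn⟩ : ∃ L, D.det.natAbs * r =
      ((q : ℤ) • (1 : Matrix (Fin n) (Fin n) ℤ)).det.natAbs * r + L ∧ n ≤ L := by
    have h1 : ((q : ℤ) • (1 : Matrix (Fin n) (Fin n) ℤ)).det.natAbs = q ^ n := by
      rw [hD0det, Int.natAbs_pow, Int.natAbs_natCast]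
    have h2 : q ^ n + 1 ≤ D.det.natAbs := by
      have h3 : ((q : ℝ) ^ n) < ((D.det.natAbs : ℕ) : ℝ) := by
        have h4 : ((D.det.natAbs : ℕ) : ℝ) = |((D.det : ℤ) : ℝ)| := by
          rw [← Int.cast_abs, Int.abs_eq_natAbs, Int.cast_natCast]
        rw [h4, hDdetR, abs_mul, abs_of_pos (by positivity)]
        have : 0 < (q : ℝ) ^ n := by positivity
        nlinarith
      exact_mod_cast h3
    refine ⟨(D.det.natAbs - q ^ n) * r, ?_, ?_⟩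
    · rw [h1, ← add_mul, Nat.add_sub_cancel' (by omega)]
    · have h5 : 1 ≤ D.det.natAbs - q ^ n := by omega
      calc n ≤ r := hr
        _ = 1 * r := (one_mul r).symm
        _ ≤ _ := Nat.mul_le_mul_right r h5
  rw [hL] at hS1
  obtain ⟨G1, hG1s, hG1c, hG1z, hG1on, hG1k⟩ := hS1
  -- the inclusion
  have hK1 : ∀ ξ m, N ((q : ℝ)⁻¹ • ξ) ≤ d →
      ∑ b, G1 b ξ * conj (G1 b (ξ + zv m)) = if m = 0 then 1 else 0 := by
    intro ξ m hξ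
    rw [hG1k, hinv1, hinv1, ker_near hφcomp]
    · have h1 : ((q : ℝ)⁻¹ • B⁻¹ *ᵥ zv m = 0) ↔ m = 0 := by
        constructor
        · intro h
          rw [smul_eq_zero] at h
          rcases h with h | h
          · exact absurd h (inv_ne_zero hq')
          · have h2 : B *ᵥ (B⁻¹ *ᵥ zv m) = 0 := by rw [h, Matrix.mulVec_zero]
            rw [Matrix.mulVec_mulVec, Matrix.mul_nonsing_inv B hBu, Matrix.one_mulVec] at h2
            exact zv_inj (by rw [h2, zv_zero])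
        · rintro rfl
          rw [zv_zero, Matrix.mulVec_zero, smul_zero]
      simp only [h1]
    · rw [← Matrix.mulVec_smul]
      exact (hNinv _).trans (by gcongr)
  have hsub : ∀ s ξ, G0 s ξ = ∑ᶠ m : Fin n → ℤ, ∑ b, G1 b ξ * conj (G1 b (ξ + zv m)) *
      G0 s (ξ + zv m) := by
    intro s ξ
    have h1 : ∀ m : Fin n → ℤ, ∑ b, G1 b ξ * conj (G1 b (ξ + zv m)) * G0 s (ξ + zv m) =
        if m = 0 then G0 s ξ else 0 := by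
      intro m
      rw [← Finset.sum_mul]
      by_cases hz : G0 s (ξ + zv m) = 0
      · rw [hz, mul_zero]
        split_ifs with hm
        · rw [hm, zv_zero, add_zero] at hz
          exact hz.symm
        · rfl
      · have h2 : N ((q : ℝ)⁻¹ • (ξ + zv m)) ≤ d := by
          by_contra hcon
          push Not at hcon
          apply hz
          apply hG0z
          intro t
          rw [hinv0]
          exact hφd t _ hcon.le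
        rw [ker_symm, hK1 _ _ h2]
        by_cases hm : m = 0
        · subst hm
          simp [zv_zero]
        · rw [if_neg (by simpa using hm), if_neg hm, map_zero, zero_mul]
    simp_rw [h1]
    rw [finsum_eq_single _ (0 : Fin n → ℤ) (fun m hm => if_neg hm), if_pos rfl]
  obtain ⟨g, hgs, hgc, hgon, hgk⟩ := Pool.Agent.Helper80.Wav.difference_frame (by omega) G0 G1
    hG0s hG1s hG0c hG1c hG0on hG1on hsub
  have hτk : ∀ ξ (m : Fin n → ℤ), ∑ s, G1 s ξ * conj (G1 s (ξ + zv m)) =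
        ker φ ((q : ℝ)⁻¹ • (B⁻¹ *ᵥ ξ)) ((q : ℝ)⁻¹ • (B⁻¹ *ᵥ zv m)) := by
    intro ξ m
    rw [hG1k, hinv1, hinv1]
  have hgk' : ∀ ξ (m : Fin n → ℤ), ∑ s, g s ξ * conj (g s (ξ + zv m)) =
        ker φ ((q : ℝ)⁻¹ • (B⁻¹ *ᵥ ξ)) ((q : ℝ)⁻¹ • (B⁻¹ *ᵥ zv m)) -
          ker φ ((q : ℝ)⁻¹ • ξ) ((q : ℝ)⁻¹ • zv m) := by
    intro ξ m
    rw [hgk, hτk, hG0k, hinv0, hinv0]
  refine ⟨d, r, φ, _, L, G1, g, hd, hφd, hφcomp, hG1s, hG1c, ?_, hgs, hgc, ?_, ?_, hτk, hgk'⟩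
  · intro l
    refine norm_one_of_gram (hG1s l).continuous (hG1c l) fun ξ => ?_
    rw [hG1on, if_pos rfl]
  · intro l
    refine norm_one_of_gram (hgs l).continuous (hgc l) fun ξ => ?_
    rw [hgon, if_pos rfl]
  · -- vanishing near zero
    refine ⟨(q : ℝ) * (κ * d) / c2, by positivity, fun l ξ hξ => ?_⟩
    have h1 : N ((q : ℝ)⁻¹ • ξ) ≤ κ * d := by
      rw [map_smul_eq_mul, norm_inv, Real.norm_natCast]
      rw [lt_div_iff₀ hc2] at hξ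
      have h2 := hN2 ξ
      rw [inv_mul_le_iff₀ (by positivity)]
      linarith
    have h2 : N ((q : ℝ)⁻¹ • (B⁻¹ *ᵥ ξ)) ≤ κ * d := by
      rw [← Matrix.mulVec_smul]
      refine (hNinv _).trans ?_
      have h3 : 0 ≤ N ((q : ℝ)⁻¹ • ξ) := apply_nonneg N _
      nlinarith
    have h3 := hgk' ξ 0
    rw [ker_near hφcomp h1, ker_near hφcomp h2, zv_zero, Matrix.mulVec_zero, smul_zero,
      if_pos rfl, sub_self] at h3
    have h4 : ∑ s, g s ξ * conj (g s (ξ + 0)) = ∑ s, ((‖g s ξ‖ ^ 2 : ℝ) : ℂ) := by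
      refine Finset.sum_congr rfl fun s _ => ?_
      rw [add_zero, Complex.mul_conj, Complex.normSq_eq_norm_sq]
    rw [h4, ← Complex.ofReal_sum, Complex.ofReal_eq_zero,
      Finset.sum_eq_zero_iff_of_nonneg (fun s _ => by positivity)] at h3
    have h5 := h3 l (Finset.mem_univ l)
    simpa using h5

end Pool.Agent.Helper80.Wav

namespace Wav

open Pool.Agent.Helper54.Wav in
theorem t_pack {m : ℕ} (hm : 0 < m) (B : Matrix (Fin m) (Fin m) ℝ)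
    (N0 : Seminorm ℝ (Fin m → ℝ)) (hN0 : ∀ x, N0 x = 0 → x = 0) (κ0 : ℝ) (hκ : 0 < κ0)
    (hκ1 : κ0 < 1) (hB : ∀ x, N0 x ≤ κ0 * N0 (B *ᵥ x)) (hdet : 1 < |B.det|) (p q : ℕ) (hp : 0 < p)
    (hq : 0 < q) (D : Matrix (Fin m) (Fin m) ℤ)
    (hD : D.map (fun z : ℤ => (z : ℝ)) = (q : ℝ) • B ^ p) :
    ∃ (a c : ℕ) (τ : Fin a → (Fin m → ℝ) → ℂ) (γ : Fin c → (Fin m → ℝ) → ℂ)
      (T : (Fin m → ℝ) → (Fin m → ℝ) → ℂ) (σ : (Fin m → ℝ) → ℝ) (inn out : Set (Fin m → ℝ)),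
      (∀ s, ContDiff ℝ ∞ (τ s)) ∧ (∀ s, HasCompactSupport (τ s)) ∧
      (∀ s, ContDiff ℝ ∞ (γ s)) ∧ (∀ s, HasCompactSupport (γ s)) ∧
      (∃ δ > 0, ∀ s t, ‖t‖ < δ → γ s t = 0) ∧ ContDiff ℝ ∞ σ ∧
      (∀ s, ∫ t, ‖τ s t‖ ^ 2 = 1) ∧ (∀ s, ∫ t, ‖γ s t‖ ^ 2 = 1) ∧
      (∀ t (k : Fin m → ℤ), ∑ s, τ s t * conj (τ s (t + Pool.Agent.Helper54.Wav.zv k)) =
        T ((B ^ (-(p : ℤ))) *ᵥ t) ((B ^ (-(p : ℤ))) *ᵥ Pool.Agent.Helper54.Wav.zv k)) ∧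
      (∀ t (k : Fin m → ℤ), ∑ s, γ s t * conj (γ s (t + Pool.Agent.Helper54.Wav.zv k)) =
        T ((B ^ (-(p : ℤ))) *ᵥ t) ((B ^ (-(p : ℤ))) *ᵥ Pool.Agent.Helper54.Wav.zv k) -
          T t (Pool.Agent.Helper54.Wav.zv k)) ∧
      (∀ t ν, T t ν ≠ 0 → ∃ z : Fin m → ℤ, ν = Pool.Agent.Helper54.Wav.zv z) ∧
      (∀ t ν, T ((B ^ (-(p : ℤ))) *ᵥ t) ((B ^ (-(p : ℤ))) *ᵥ ν) ≠ 0 →
        ∃ z : Fin m → ℤ, ν = Pool.Agent.Helper54.Wav.zv z) ∧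
      Disjoint inn out ∧ (0 : Fin m → ℝ) ∈ inn ∧
      (∀ t ∈ inn, ∀ ν, T t ν = if ν = 0 then 1 else 0) ∧ (∀ t ∈ out, ∀ ν, T t ν = 0) ∧
      (∀ t ν, T t ν ≠ 0 → ν ≠ 0 → t ∉ inn ∧ t ∉ out ∧ t + ν ∉ inn ∧ t + ν ∉ out) ∧
      (∀ t, t ∉ out → (B ^ (-1 : ℤ)) *ᵥ t ∈ inn) ∧
      (∀ t, t ≠ 0 → ∃ J : ℕ, ∀ j : ℤ, (J : ℤ) ≤ j →
        (B ^ (-j)) *ᵥ t ∈ inn ∧ (B ^ j) *ᵥ t ∈ out) ∧
      (∀ t, t ∉ out → σ t = 0) ∧ (∀ t, (B ^ (-1 : ℤ)) *ᵥ t ∉ inn → σ t = 1) := by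
  classical
  have hBdet : B.det ≠ 0 := det_pos_of_norm N0 hN0 B hB
  have hBu : IsUnit B.det := isUnit_iff_ne_zero.2 hBdet
  have hq' : (q : ℝ) ≠ 0 := by positivity
  have hqpos : (0 : ℝ) < (q : ℝ)⁻¹ := by positivity
  set κ : ℝ := (κ0 + 1) / 2 with hκdef
  have hκpos : 0 < κ := by positivity
  have hκlt : κ < 1 := by linarith
  have hκ0κ : κ0 < κ := by linarith
  have hNn : ∀ x, 0 ≤ N0 x := fun x => apply_nonneg N0 x
  -- powers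
  have hpow : ∀ k : ℕ, ∀ x, N0 x ≤ κ0 ^ k * N0 ((B ^ k) *ᵥ x) := by
    intro k
    induction k with
    | zero => intro x; simp
    | succ k ih =>
      intro x
      rw [pow_succ' B, ← Matrix.mulVec_mulVec]
      calc N0 x ≤ κ0 ^ k * N0 ((B ^ k) *ᵥ x) := ih x
        _ ≤ κ0 ^ k * (κ0 * N0 (B *ᵥ ((B ^ k) *ᵥ x))) := by
            gcongr
            exact hB _
        _ = _ := by ring
  have hBp : ∀ x, N0 x ≤ κ * N0 ((B ^ p) *ᵥ x) := by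
    intro x
    refine (hpow p x).trans ?_
    have h1 : κ0 ^ p ≤ κ := by
      calc κ0 ^ p ≤ κ0 ^ 1 := pow_le_pow_of_le_one hκ.le hκ1.le hp
        _ = κ0 := pow_one _
        _ ≤ κ := hκ0κ.le
    exact mul_le_mul_of_nonneg_right h1 (hNn _)
  have hdetp : 1 < |(B ^ p).det| := by
    rw [Matrix.det_pow, abs_pow]
    exact one_lt_pow₀ hdet hp.ne'
  obtain ⟨d, r, φ, a, c, τ, g, hd, hφd, hφcomp, hτs, hτc, hτ1, hgs, hgc, hg1, hg0, hτk, hgk⟩ :=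
    Pool.Agent.Helper80.Wav.pack_one hm N0 hN0 κ hκpos hκlt (B ^ p) hBp hdetp q hq D hD
  have hBpu : IsUnit (B ^ p).det := by
    rw [Matrix.det_pow]
    exact hBu.pow p
  have hzp : B ^ (-(p : ℤ)) = (B ^ p)⁻¹ := Matrix.zpow_neg_natCast B p
  have hinj : ∀ ν : Fin m → ℝ, (q : ℝ)⁻¹ • ν = 0 ↔ ν = 0 := by
    intro ν
    rw [smul_eq_zero]
    exact ⟨fun h => h.resolve_left (inv_ne_zero hq'), fun h => Or.inr h⟩
  have hin : ∀ t, N0 ((q : ℝ)⁻¹ • t) ≤ κ * d → ∀ ν : Fin m → ℝ,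
      ker φ ((q : ℝ)⁻¹ • t) ((q : ℝ)⁻¹ • ν) = if ν = 0 then 1 else 0 := by
    intro t ht ν
    rw [ker_near hφcomp ht]
    simp only [hinj]
  have hou : ∀ t, d ≤ N0 ((q : ℝ)⁻¹ • t) → ∀ ν : Fin m → ℝ,
      ker φ ((q : ℝ)⁻¹ • t) ((q : ℝ)⁻¹ • ν) = 0 := by
    intro t ht ν
    exact ker_far (fun s => hφd s _ ht) _
  have hint : ∀ t ν : Fin m → ℝ, ker φ ((q : ℝ)⁻¹ • t) ((q : ℝ)⁻¹ • ν) ≠ 0 →
      ∃ z : Fin m → ℤ, (q : ℝ)⁻¹ • ν = Pool.Agent.Helper54.Wav.zv z := by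
    intro t ν h
    by_contra hcon
    apply h
    unfold ker
    rw [if_neg hcon]
  have hconj : ∀ t ν : Fin m → ℝ, ker φ ((q : ℝ)⁻¹ • t) ((q : ℝ)⁻¹ • ν) ≠ 0 →
      ker φ ((q : ℝ)⁻¹ • (t + ν)) ((q : ℝ)⁻¹ • (-ν)) ≠ 0 := by
    intro t ν h
    obtain ⟨z, hz⟩ := hint t ν h
    have e1 : (q : ℝ)⁻¹ • (-ν) = Pool.Agent.Helper54.Wav.zv (-z) := by
      rw [smul_neg, hz, Pool.Agent.Helper54.Wav.zv_neg]
    have e2 : (q : ℝ)⁻¹ • (t + ν) = (q : ℝ)⁻¹ • t + Pool.Agent.Helper54.Wav.zv z := by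
      rw [smul_add, hz]
    rw [e1, e2, ker_zv]
    rw [hz, ker_zv, ker_symm] at h
    intro h0
    exact h (by rw [h0, map_zero])
  have hNinv : ∀ x : Fin m → ℝ, N0 ((B ^ (-1 : ℤ)) *ᵥ x) ≤ κ0 * N0 x := by
    intro x
    have h1 := hB (B⁻¹ *ᵥ x)
    rw [Matrix.zpow_neg_one]
    rwa [Matrix.mulVec_mulVec, Matrix.mul_nonsing_inv B hBu, Matrix.one_mulVec] at h1
  have hNc := seminorm_continuous N0
  have hmc : Continuous fun t : Fin m → ℝ => (q : ℝ)⁻¹ • ((B ^ (-1 : ℤ)) *ᵥ t) := by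
    have h1 : Continuous fun t : Fin m → ℝ => (B ^ (-1 : ℤ)) *ᵥ t :=
      Continuous.matrix_mulVec continuous_const continuous_id
    exact h1.const_smul ((q : ℝ)⁻¹)
  obtain ⟨σ, hσs, hσ0, hσ1⟩ := exists_cutoff (n := m)
    (s := {t | N0 ((q : ℝ)⁻¹ • t) ≤ d}) (t := {t | κ * d ≤ N0 ((q : ℝ)⁻¹ • ((B ^ (-1 : ℤ)) *ᵥ t))})
    (isClosed_le (hNc.comp (continuous_const_smul _)) continuous_const)
    (isClosed_le continuous_const (hNc.comp hmc)) (by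
      rw [Set.disjoint_left]
      intro t h1 h2
      have h1' : N0 ((q : ℝ)⁻¹ • t) ≤ d := h1
      have h2' : κ * d ≤ N0 ((q : ℝ)⁻¹ • ((B ^ (-1 : ℤ)) *ᵥ t)) := h2
      rw [← Matrix.mulVec_smul] at h2'
      have h3 := hNinv ((q : ℝ)⁻¹ • t)
      have h4 : κ0 * N0 ((q : ℝ)⁻¹ • t) ≤ κ0 * d := mul_le_mul_of_nonneg_left h1' hκ.le
      have h5 : κ0 * d < κ * d := mul_lt_mul_of_pos_right hκ0κ hd
      linarith)
  refine ⟨a, c, τ, g, fun t ν => ker φ ((q : ℝ)⁻¹ • t) ((q : ℝ)⁻¹ • ν), σ,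
    {t | N0 ((q : ℝ)⁻¹ • t) ≤ κ * d}, {t | d ≤ N0 ((q : ℝ)⁻¹ • t)}, hτs, hτc, hgs, hgc, ?_, hσs,
    hτ1, hg1, ?_, ?_, ?_, ?_, ?_, ?_, ?_, ?_, ?_, ?_, ?_, ?_, ?_⟩
  · exact hg0
  · intro t k
    rw [hzp]
    exact hτk t k
  · intro t k
    rw [hzp]
    exact hgk t k
  · intro t ν h
    obtain ⟨z, hz⟩ := hint t ν h
    refine ⟨(q : ℤ) • z, ?_⟩
    have h4 : ν = (q : ℝ) • ((q : ℝ)⁻¹ • ν) := by
      rw [smul_smul, mul_inv_cancel₀ hq', one_smul]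
    rw [h4, hz]
    funext i
    simp [Pool.Agent.Helper54.Wav.zv]
  · intro t ν h
    obtain ⟨z, hz⟩ := hint _ _ h
    refine ⟨D *ᵥ z, ?_⟩
    rw [← Pool.Agent.Helper96.Wav.map_mulVec_zv, ← hz, hD, Matrix.smul_mulVec,
      Matrix.mulVec_smul, smul_smul, mul_inv_cancel₀ hq', one_smul, hzp, Matrix.mulVec_mulVec,
      Matrix.mul_nonsing_inv _ hBpu, Matrix.one_mulVec]
  · rw [Set.disjoint_left]
    intro t h1 h2
    have h1' : N0 ((q : ℝ)⁻¹ • t) ≤ κ * d := h1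
    have h2' : d ≤ N0 ((q : ℝ)⁻¹ • t) := h2
    nlinarith
  · show N0 ((q : ℝ)⁻¹ • (0 : Fin m → ℝ)) ≤ κ * d
    rw [smul_zero, map_zero]
    positivity
  · intro t ht ν
    exact hin t ht ν
  · intro t ht ν
    exact hou t ht ν
  · intro t ν h hν
    have h' := hconj t ν h
    refine ⟨fun h1 => ?_, fun h1 => ?_, fun h1 => ?_, fun h1 => ?_⟩
    · exact h ((hin t h1 ν).trans (if_neg hν))
    · exact h (hou t h1 ν)
    · exact h' ((hin _ h1 _).trans (if_neg (neg_ne_zero.2 hν)))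
    · exact h' (hou _ h1 _)
  · intro t ht
    have ht' : N0 ((q : ℝ)⁻¹ • t) < d := not_le.1 ht
    show N0 ((q : ℝ)⁻¹ • ((B ^ (-1 : ℤ)) *ᵥ t)) ≤ κ * d
    rw [← Matrix.mulVec_smul]
    have h3 := hNinv ((q : ℝ)⁻¹ • t)
    have h4 : κ0 * N0 ((q : ℝ)⁻¹ • t) ≤ κ0 * d := mul_le_mul_of_nonneg_left ht'.le hκ.le
    have h5 : κ0 * d < κ * d := mul_lt_mul_of_pos_right hκ0κ hd
    linarith
  · intro t ht
    have hexp := hexp_of_norm N0 hN0 hκ hκ1 B hB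
    obtain ⟨c2, hc2, hN2⟩ := seminorm_le N0
    obtain ⟨c1, hc1, hN1⟩ := le_seminorm N0 hN0
    obtain ⟨J1, hJ1⟩ := hexp (‖t‖ + 1) (by positivity) ((q : ℝ) * (κ * d) / c2) (by positivity)
    obtain ⟨J2, hJ2⟩ := hexp ((q : ℝ) * d / c1) (by positivity) ‖t‖ (norm_pos_iff.2 ht)
    refine ⟨max J1 J2, fun j hj => ⟨?_, ?_⟩⟩
    · have h3 := (hJ1 j (le_trans (by exact_mod_cast le_max_left _ _) hj) t).1 (by linarith)
      show N0 ((q : ℝ)⁻¹ • ((B ^ (-j)) *ᵥ t)) ≤ κ * d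
      rw [map_smul_eq_mul, norm_inv, Real.norm_natCast]
      rw [le_div_iff₀ hc2] at h3
      have h2 := hN2 ((B ^ (-j)) *ᵥ t)
      rw [inv_mul_le_iff₀ (by positivity)]
      linarith
    · have h3 := (hJ2 j (le_trans (by exact_mod_cast le_max_right _ _) hj) t).2 le_rfl
      show d ≤ N0 ((q : ℝ)⁻¹ • ((B ^ j) *ᵥ t))
      rw [map_smul_eq_mul, norm_inv, Real.norm_natCast]
      rw [div_le_iff₀ hc1] at h3
      have h2 := hN1 ((B ^ j) *ᵥ t)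
      rw [le_inv_mul_iff₀ (by positivity)]
      linarith
  · intro t ht
    have ht' : N0 ((q : ℝ)⁻¹ • t) < d := not_le.1 ht
    exact hσ0 t ht'.le
  · intro t ht
    have ht' : κ * d < N0 ((q : ℝ)⁻¹ • ((B ^ (-1 : ℤ)) *ᵥ t)) := not_le.1 ht
    exact hσ1 t ht'.le

end Wav
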